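import Pool.Agent.LE.StmtsX
import Pool.Agent.Helper42_LEF.CDD
import Pool.Agent.Helper73_BED.Edge

/-!
# Deterministic conduction from a flat landscape function
-/

set_option autoImplicit false
set_option linter.unusedSectionVars false

open scoped BigOperators

noncomputable section

namespace Pool.Agent.LE.H59W

open Matrix Pool.Agent.Anderson Pool.Agent.Loc Pool.Agent.BED Pool.Agent.LE.H42F

variable {d : ℕ}

/-- the Green function, cut off outside a cube, solves the equation up to an error on two layers -/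
theorem cut {E m : ℝ} {V : Site d → ℝ} {Λ : Finset (Site d)} {b : Site d} {r : ℕ}
    (hm : 0 ≤ m) (hΛ : box b (r + 1) ⊆ Λ) (hdet : (RM V Λ E).det ≠ 0)
    (hg : ∀ y : Site d, (sd b y = r ∨ sd b y = r + 1) → |gr V Λ E b y| ≤ m) :
    ∃ ψ e : Site d → ℝ, (∀ x, r < sd b x → ψ x = 0) ∧ (∀ x, |e x| ≤ 2 * d * m) ∧
      (∀ x, r + 1 < sd b x → e x = 0) ∧
      ∀ x, (E - V x) * ψ x - Lp ψ x = (if b = x then 1 else 0) + e x := by
  have hbΛ : b ∈ Λ := hΛ (by rw [mem_box, sd_self]; exact Nat.zero_le _)
  set g : Site d → ℝ := fun y => gr V Λ E b y with hgdef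
  set ψ : Site d → ℝ := fun x => if sd b x ≤ r then g x else 0 with hψdef
  have hψ : ∀ x, r < sd b x → ψ x = 0 := by
    intro x hx
    simp only [hψdef]
    rw [if_neg (by omega)]
  set e : Site d → ℝ := fun x => (E - V x) * ψ x - Lp ψ x - (if b = x then 1 else 0) with he
  have hn1' : ∀ x : Site d, ∀ i : Fin d, sd x (x + Pi.single i 1) ≤ 1 ∧
      sd x (x - Pi.single i 1) ≤ 1 := fun x i => ⟨sd_add_single_le x i, sd_sub_single_le x i⟩
  have hsum : ∀ (F : Site d → ℝ) (x : Site d), (∀ y, sd x y ≤ 1 → |F y| ≤ m) →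
      |Lp F x| ≤ 2 * d * m := by
    intro F x hF
    unfold Lp
    calc |∑ i : Fin d, (F (x + Pi.single i 1) + F (x - Pi.single i 1))|
        ≤ ∑ i : Fin d, |F (x + Pi.single i 1) + F (x - Pi.single i 1)| :=
          Finset.abs_sum_le_sum_abs _ _
      _ ≤ ∑ _i : Fin d, 2 * m := by
          refine Finset.sum_le_sum fun i _ => ?_
          have h1 := hF _ (hn1' x i).1
          have h2 := hF _ (hn1' x i).2
          have h3 := abs_add_le (F (x + Pi.single i 1)) (F (x - Pi.single i 1))
          linarith
      _ = 2 * d * m := by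
          rw [Finset.sum_const, Finset.card_univ, Fintype.card_fin, nsmul_eq_mul]
          ring
  have hLsub : ∀ (F F' : Site d → ℝ) (x : Site d), Lp (fun y => F y - F' y) x =
      Lp F x - Lp F' x := by
    intro F F' x
    unfold Lp
    rw [← Finset.sum_sub_distrib]
    refine Finset.sum_congr rfl fun i _ => ?_
    ring
  refine ⟨ψ, e, hψ, ?_, ?_, ?_⟩
  · intro x
    by_cases hx : sd b x ≤ r
    · have hx1 : box x 1 ⊆ Λ := by
        intro y hy
        apply hΛ
        rw [mem_box] at hy ⊢
        have := sd_triangle b x y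
        omega
      have hxΛ : x ∈ Λ := hx1 (by rw [mem_box, sd_self]; exact Nat.zero_le _)
      have h1 := gr_real hdet hbΛ hxΛ hx1
      have h2 : ψ x = g x := by simp only [hψdef]; rw [if_pos hx]
      have h3 : e x = Lp (fun y => g y - ψ y) x := by
        rw [hLsub]
        simp only [he]
        rw [h2]
        simp only [hgdef] at h1 ⊢
        linarith
      rw [h3]
      apply hsum
      intro y hy
      by_cases hyr : sd b y ≤ r
      · have : ψ y = g y := by simp only [hψdef]; rw [if_pos hyr]
        rw [this, sub_self, abs_zero]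
        exact hm
      · have h4 := hψ y (by omega)
        rw [h4, sub_zero]
        apply hg
        right
        have := sd_triangle b x y
        omega
    · push Not at hx
      have h2 := hψ x hx
      have h3 : b ≠ x := by
        rintro rfl
        rw [sd_self] at hx
        omega
      have h4 : e x = - Lp ψ x := by
        simp only [he]
        rw [h2, if_neg h3]
        ring
      rw [h4, abs_neg]
      apply hsum
      intro y hy
      by_cases hyr : sd b y ≤ r
      · have h5 : ψ y = g y := by simp only [hψdef]; rw [if_pos hyr]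
        rw [h5]
        apply hg
        left
        have h6 := sd_triangle b y x
        rw [sd_comm y x] at h6
        omega
      · rw [hψ y (by omega), abs_zero]
        exact hm
  · intro x hx
    have h2 := hψ x (by omega)
    have h3 : b ≠ x := by
      rintro rfl
      rw [sd_self] at hx
      omega
    have h5 : Lp ψ x = 0 := by
      unfold Lp
      refine Finset.sum_eq_zero fun i _ => ?_
      have a1 := sd_triangle b (x + Pi.single i 1) x
      have a2 := sd_triangle b (x - Pi.single i 1) x
      have a3 := (hn1' x i).1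
      have a4 := (hn1' x i).2
      rw [sd_comm] at a3 a4
      rw [hψ _ (by omega), hψ _ (by omega), add_zero]
    simp only [he]
    rw [h2, if_neg h3, h5]
    ring
  · intro x
    simp only [he]
    ring

theorem sd_rep {M : ℕ} (b : Site d) (y : Tor d M) (k : ℕ) :
    sd b (b + rep y) ≤ k ↔ ∀ i, |rep y i| ≤ k := by
  rw [sd_le_iff]
  have h : ∀ i, |b i - (b + rep y) i| = |rep y i| := by
    intro i
    rw [Pi.add_apply, show b i - (b i + rep y i) = - rep y i by ring, abs_neg]
  simp only [h]

/-- the equation on the torus -/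
theorem torus_eq {M : ℕ} [NeZero M] {E z : ℝ} {V ψ e : Site d → ℝ} {b : Site d} {r : ℕ}
    (hM : 2 * r + 5 ≤ M) (hψ : ∀ x, r < sd b x → ψ x = 0) (he0 : ∀ x, r + 1 < sd b x → e x = 0)
    (heq : ∀ x, (E - V x) * ψ x - Lp ψ x = (if b = x then 1 else 0) + e x) (x : Tor d M) :
    (AM z (fun x : Tor d M => V (b + rep x)) *ᵥ fun x => ψ (b + rep x)) x =
      (if x = 0 then 1 else 0) + ((z - E) * ψ (b + rep x) + e (b + rep x)) := by
  rw [AM_mulVec]
  have hM' : (2 * (r : ℤ) + 5) ≤ M := by exact_mod_cast hM
  have hz : (b = b + rep x) ↔ x = 0 := by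
    constructor
    · intro h
      have h1 : rep x = 0 := by
        have h2 := congrArg (fun t => t - b) h
        simp only [sub_self, add_sub_cancel_left] at h2
        exact h2.symm
      funext i
      have := congrFun h1 i
      exact (ZMod.valMinAbs_eq_zero _).1 this
    · rintro rfl
      funext i
      simp [rep]
  by_cases hx : sd b (b + rep x) ≤ r + 1
  · have hb : ∀ i, 2 * (|rep x i| + 1) < (M : ℤ) := by
      intro i
      have h1 := (sd_rep b x (r + 1)).1 hx i
      push_cast at h1
      linarith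
    simp only [H73.rep_add_ev x hb, H73.rep_sub_ev x hb]
    have h := heq (b + rep x)
    unfold Lp at h
    have e1 : ∀ i : Fin d, ψ (b + (rep x + Pi.single i 1)) = ψ (b + rep x + Pi.single i 1) :=
      fun i => by rw [add_assoc]
    have e2 : ∀ i : Fin d, ψ (b + (rep x - Pi.single i 1)) = ψ (b + rep x - Pi.single i 1) :=
      fun i => by rw [add_sub_assoc]
    simp only [e1, e2]
    have e3 : (if b = b + rep x then (1 : ℝ) else 0) = if x = 0 then 1 else 0 := by
      simp only [hz]
    rw [e3] at h
    linarith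
  · push Not at hx
    have h0 : ψ (b + rep x) = 0 := hψ _ (by omega)
    have h1 : e (b + rep x) = 0 := he0 _ hx
    have h2 : x ≠ 0 := by
      rintro rfl
      rw [← hz.2 rfl, sd_self] at hx
      omega
    have h3 : ∀ i : Fin d, ψ (b + rep (x + ev i)) = 0 := by
      intro i
      apply hψ
      by_contra hc
      push Not at hc
      have hb : ∀ j, 2 * (|rep (x + ev i) j| + 1) < (M : ℤ) := by
        intro j
        have h4 := (sd_rep b (x + ev i) r).1 hc j
        linarith
      have h5 := H73.rep_sub_ev (x + ev i) hb i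
      rw [add_sub_cancel_right] at h5
      have h6 := sd_triangle b (b + rep (x + ev i)) (b + rep x)
      have h7 := sd_sub_single_le (b + rep (x + ev i)) i
      rw [h5] at h6 hx
      rw [← add_sub_assoc] at h6 hx
      omega
    have h3' : ∀ i : Fin d, ψ (b + rep (x - ev i)) = 0 := by
      intro i
      apply hψ
      by_contra hc
      push Not at hc
      have hb : ∀ j, 2 * (|rep (x - ev i) j| + 1) < (M : ℤ) := by
        intro j
        have h4 := (sd_rep b (x - ev i) r).1 hc j
        linarith
      have h5 := H73.rep_add_ev (x - ev i) hb i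
      rw [sub_add_cancel] at h5
      have h6 := sd_triangle b (b + rep (x - ev i)) (b + rep x)
      have h7 := sd_add_single_le (b + rep (x - ev i)) i
      rw [h5] at h6 hx
      rw [← add_assoc] at h6 hx
      omega
    rw [h0, h1, if_neg h2, Finset.sum_eq_zero fun i _ => by rw [h3, h3', add_zero]]
    ring

theorem GM_le_of_diag {M : ℕ} [NeZero M] {z C1 : ℝ} {V : Tor d M → ℝ} (hA : (AM z V).PosDef)
    (hC : ∀ x, GM z V x x ≤ C1) (x y : Tor d M) : GM z V x y ≤ C1 := by
  by_cases hxy : x = y
  · rw [hxy]; exact hC y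
  have h := nonneg_of_posDef hA.inv (fun w => (if w = x then (1 : ℝ) else 0) -
    (if w = y then 1 else 0))
  change 0 ≤ ∑ w, _ * (GM z V *ᵥ _) w at h
  have e1 : ∀ w, (GM z V *ᵥ fun w => (if w = x then (1 : ℝ) else 0) -
      (if w = y then 1 else 0)) w = GM z V w x - GM z V w y := by
    intro w
    simp only [Matrix.mulVec, dotProduct, mul_sub, Finset.sum_sub_distrib, mul_ite, mul_one,
      mul_zero, Finset.sum_ite_eq', Finset.mem_univ, if_true]
  simp only [e1] at h
  simp only [sub_mul, Finset.sum_sub_distrib, ite_mul, one_mul, zero_mul, Finset.sum_ite_eq',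
    Finset.mem_univ, if_true] at h
  have h1 := GM_symm hA x y
  have h2 := hC x
  have h3 := hC y
  linarith

theorem cdf : CdfStmt := by
  intro d M _ z μ E C1 lam V Λ b r hd hM hz hμ hC1 hflat hdiag hEz hlam hCμ hΛ hdet
  by_contra hcon
  push Not at hcon
  have hd0 : (0 : ℝ) < d := by exact_mod_cast hd
  set n : ℝ := 2 * (r : ℝ) + 3 with hn
  have hr0 : (0 : ℝ) ≤ r := Nat.cast_nonneg r
  have hn0 : 0 < n := by rw [hn]; linarith
  have hnd0 : 0 < n ^ d := by positivity
  set m : ℝ := 1 / (16 * d * n ^ d) with hm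
  have hm0 : 0 < m := by positivity
  have hg : ∀ y : Site d, (sd b y = r ∨ sd b y = r + 1) → |gr V Λ E b y| ≤ m := by
    intro y hy
    have := hcon y hy
    rw [hm, le_div_iff₀ (by positivity)]
    linarith
  obtain ⟨ψ, e, hψ, hebd, he0, heq⟩ := cut hm0.le hΛ hdet hg
  obtain ⟨-, hA, hD⟩ := hflat
  set U : Tor d M → ℝ := fun x : Tor d M => V (b + rep x) with hU
  set φ : Tor d M → ℝ := fun x => ψ (b + rep x) with hφ
  set f : Tor d M → ℝ := fun x => e (b + rep x) with hf
  set f' : Tor d M → ℝ := fun x => (z - E) * φ x + f x with hf'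
  set k : ℝ := (2 * (r : ℝ) + 1) ^ d with hk
  have hk0 : 0 < k := by positivity
  have hinj : Function.Injective (fun x : Tor d M => b + rep x) := fun x y h =>
    H73.rep_inj (add_left_cancel h)
  -- the inside
  set In : Finset (Tor d M) := Finset.univ.filter fun x => sd b (b + rep x) ≤ r with hIn
  have hIncard : (In.card : ℝ) ≤ k := by
    have h1 : In.card ≤ (box b r).card := by
      refine Finset.card_le_card_of_injOn (fun x => b + rep x) ?_ fun x _ y _ h => hinj h
      intro x hx
      rw [hIn, Finset.coe_filter] at hx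
      rw [Finset.mem_coe, mem_box]
      exact hx.2
    rw [card_box] at h1
    rw [hk]
    exact_mod_cast h1
  have hφ0 : ∀ x, x ∉ In → φ x = 0 := by
    intro x hx
    apply hψ
    by_contra hc
    apply hx
    rw [hIn, Finset.mem_filter]
    exact ⟨Finset.mem_univ _, by omega⟩
  -- the error
  have hcard : ((box b (r + 1)).card : ℝ) = n ^ d := by
    rw [card_box]
    push_cast
    rw [hn]
    ring
  have hF : ∑ x, |f x| ≤ 1 / 8 := by
    have h1 : ∑ x, |f x| = ∑ y ∈ Finset.univ.image (fun x : Tor d M => b + rep x), |e y| := by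
      rw [Finset.sum_image fun x _ y _ h => hinj h]
    have h2 : ∑ y ∈ Finset.univ.image (fun x : Tor d M => b + rep x), |e y| ≤
        ∑ y ∈ Finset.univ.image (fun x : Tor d M => b + rep x) ∪ box b (r + 1), |e y| :=
      Finset.sum_le_sum_of_subset_of_nonneg Finset.subset_union_left fun _ _ _ => abs_nonneg _
    have h3 : ∑ y ∈ Finset.univ.image (fun x : Tor d M => b + rep x) ∪ box b (r + 1), |e y| =
        ∑ y ∈ box b (r + 1), |e y| := by
      symm
      refine Finset.sum_subset Finset.subset_union_right fun y _ hy => ?_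
      rw [mem_box] at hy
      rw [he0 y (by omega), abs_zero]
    rw [h1]
    refine h2.trans ?_
    rw [h3]
    calc ∑ x ∈ box b (r + 1), |e x| ≤ ∑ _x ∈ box b (r + 1), 2 * d * m :=
          Finset.sum_le_sum fun x _ => hebd x
      _ = 2 * d * m * n ^ d := by
          rw [Finset.sum_const, nsmul_eq_mul, hcard]
          ring
      _ = 1 / 8 := by
          rw [hm]
          field_simp
          norm_num
  -- the representation
  have hrep : ∀ x, φ x = GM z U x 0 + ∑ y, GM z U x y * f' y := by
    intro x
    have h1 : AM z U *ᵥ φ = fun x => (if x = 0 then 1 else 0) + f' x := by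
      funext y
      exact torus_eq hM hψ he0 heq y
    have h2 := inv_mulVec hA φ
    rw [h1] at h2
    have h3 := congrFun h2 x
    rw [← h3]
    change (GM z U *ᵥ _) x = _
    simp only [Matrix.mulVec, dotProduct, mul_add, Finset.sum_add_distrib, mul_ite, mul_one,
      mul_zero, Finset.sum_ite_eq', Finset.mem_univ, if_true]
  have hG0 := GM_nonneg hA
  have hG1 := GM_le_of_diag hA hdiag
  -- the sup norm
  obtain ⟨x₀, -, hx₀⟩ := Finset.exists_max_image (Finset.univ : Finset (Tor d M))
    (fun x => |φ x|) Finset.univ_nonempty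
  set P : ℝ := |φ x₀| with hP
  have hP0 : 0 ≤ P := abs_nonneg _
  have hlam0 : 0 ≤ lam := (abs_nonneg _).trans hEz
  have hφ1 : ∑ x, |φ x| ≤ k * P := by
    have h1 : ∑ x, |φ x| = ∑ x ∈ In, |φ x| := by
      symm
      refine Finset.sum_subset (Finset.subset_univ _) fun x _ hx => ?_
      rw [hφ0 x hx, abs_zero]
    rw [h1]
    calc ∑ x ∈ In, |φ x| ≤ ∑ _x ∈ In, P := Finset.sum_le_sum fun x _ => hx₀ x (Finset.mem_univ _)
      _ = In.card * P := by rw [Finset.sum_const, nsmul_eq_mul]
      _ ≤ k * P := mul_le_mul_of_nonneg_right hIncard hP0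
  have hf'1 : ∑ x, |f' x| ≤ lam * (k * P) + 1 / 8 := by
    calc ∑ x, |f' x| ≤ ∑ x, (lam * |φ x| + |f x|) := by
          refine Finset.sum_le_sum fun x _ => ?_
          have h1 := abs_add_le ((z - E) * φ x) (f x)
          rw [abs_mul] at h1
          have h2 : |z - E| * |φ x| ≤ lam * |φ x| := by
            rw [abs_sub_comm]
            exact mul_le_mul_of_nonneg_right hEz (abs_nonneg _)
          linarith
      _ = lam * ∑ x, |φ x| + ∑ x, |f x| := by rw [Finset.sum_add_distrib, Finset.mul_sum]
      _ ≤ _ := add_le_add (mul_le_mul_of_nonneg_left hφ1 hlam0) hF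
  set S : ℝ := ∑ x, |f' x| with hS
  have hS0 : 0 ≤ S := Finset.sum_nonneg fun x _ => abs_nonneg _
  have hPle : P ≤ C1 + C1 * S := by
    rw [hP, hrep x₀]
    refine (abs_add_le _ _).trans (add_le_add ?_ ?_)
    · rw [abs_of_nonneg (hG0 _ _)]; exact hG1 _ _
    · refine (Finset.abs_sum_le_sum_abs _ _).trans ?_
      rw [hS, Finset.mul_sum]
      refine Finset.sum_le_sum fun y _ => ?_
      rw [abs_mul, abs_of_nonneg (hG0 _ _)]
      exact mul_le_mul_of_nonneg_right (hG1 _ _) (abs_nonneg _)
  have hCl : 16 * (C1 * (lam * k)) ≤ 1 := by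
    have : 16 * (C1 * (lam * k)) = 16 * C1 * lam * k := by ring
    rw [this]
    exact hlam
  have hlk : 0 ≤ lam * k := by positivity
  have hSle : S ≤ 1 / 4 := by
    have h1 : lam * (k * P) ≤ lam * k * (C1 + C1 * S) := by
      have : lam * (k * P) = lam * k * P := by ring
      rw [this]
      exact mul_le_mul_of_nonneg_left hPle hlk
    have h2 : lam * k * (C1 + C1 * S) = C1 * (lam * k) * (1 + S) := by ring
    have h3 : C1 * (lam * k) * (1 + S) ≤ 1 / 16 * (1 + S) :=
      mul_le_mul_of_nonneg_right (by linarith) (by linarith)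
    linarith
  -- the sum over the outside
  have hout : ∑ x ∈ Finset.univ \ In, φ x = 0 :=
    Finset.sum_eq_zero fun x hx => hφ0 x (Finset.mem_sdiff.1 hx).2
  have h1 : ∑ x ∈ Finset.univ \ In, φ x = ∑ x ∈ Finset.univ \ In, GM z U x 0 +
      ∑ y, (∑ x ∈ Finset.univ \ In, GM z U x y) * f' y := by
    rw [Finset.sum_congr rfl fun x _ => hrep x, Finset.sum_add_distrib, Finset.sum_comm]
    simp only [Finset.sum_mul]
  have hcol : ∀ y, ∑ x, GM z U x y = DD z U y := by
    intro y
    unfold DD
    exact Finset.sum_congr rfl fun x _ => GM_symm hA x y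
  have h2 : 98 / 100 * μ - k * C1 ≤ ∑ x ∈ Finset.univ \ In, GM z U x 0 := by
    have h3 := Finset.sum_sdiff (Finset.subset_univ In) (f := fun x => GM z U x 0)
    have h4 : ∑ x ∈ In, GM z U x 0 ≤ k * C1 := by
      calc ∑ x ∈ In, GM z U x 0 ≤ ∑ _x ∈ In, C1 := Finset.sum_le_sum fun x _ => hG1 x 0
        _ = In.card * C1 := by rw [Finset.sum_const, nsmul_eq_mul]
        _ ≤ k * C1 := mul_le_mul_of_nonneg_right hIncard hC1.le
    have h5 := hcol 0
    have h6 := (abs_le.1 (hD 0)).1
    linarith
  have h3 : |∑ y, (∑ x ∈ Finset.univ \ In, GM z U x y) * f' y| ≤ 102 / 100 * μ * S := by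
    refine (Finset.abs_sum_le_sum_abs _ _).trans ?_
    rw [hS, Finset.mul_sum]
    refine Finset.sum_le_sum fun y _ => ?_
    have h4 : ∑ x ∈ Finset.univ \ In, GM z U x y ≤ DD z U y := by
      rw [← hcol y]
      exact Finset.sum_le_sum_of_subset_of_nonneg (Finset.subset_univ _) fun x _ _ => hG0 x y
    have h5 := (abs_le.1 (hD y)).2
    rw [abs_mul, abs_of_nonneg (Finset.sum_nonneg fun x _ => hG0 x y)]
    exact mul_le_mul_of_nonneg_right (by linarith) (abs_nonneg _)
  rw [hout] at h1
  have h4 := (abs_le.1 h3).1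
  have h5 : 102 / 100 * μ * S ≤ 102 / 100 * μ * (1 / 4) :=
    mul_le_mul_of_nonneg_left hSle (by positivity)
  have h6 : 4 * (k * C1) ≤ μ := by
    have : 4 * (k * C1) = 4 * C1 * k := by ring
    rw [this]
    exact hCμ
  linarith

end Pool.Agent.LE.H59W
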