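import Pool.Agent.LE.StmtsW

/-!
# TRF: the triangle inequality for `FD`
-/

set_option autoImplicit false

open MeasureTheory ProbabilityTheory Function Filter

open scoped ENNReal BigOperators Topology

noncomputable section

namespace Pool.Agent.LE.H59W

open Pool.Agent.Anderson Pool.Agent.Loc Pool.Agent.Mob Pool.Agent.Helper54.Bal
  Pool.Agent.Helper96.EXP

theorem gmax_pos {d : ℕ} {V : Site d → ℝ} {Λ S : Finset (Site d)} {E : ℝ} {x z : Site d}
    (hz : z ∈ S) (h : gr V Λ E z x ≠ 0) : 0 < gmax V Λ E S x := by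
  unfold gmax
  have h1 : ‖gr V Λ E z x‖₊ ≤ S.sup fun z => ‖gr V Λ E z x‖₊ :=
    Finset.le_sup (f := fun z => ‖gr V Λ E z x‖₊) hz
  have h2 : 0 < ‖gr V Λ E z x‖₊ := by
    rw [pos_iff_ne_zero, Ne, nnnorm_eq_zero]
    exact h
  exact NNReal.coe_pos.2 (h2.trans_le h1)

theorem log_step {A B g t : ℝ} (hA : 0 < A) (hB : 0 < B) (hg : 0 < g)
    (h : A * g ≤ Real.exp t * B) : -Real.log B ≤ -Real.log A + -Real.log g + t := by
  have h1 := Real.log_le_log (mul_pos hA hg) h
  rw [Real.log_mul hA.ne' hg.ne', Real.log_mul (Real.exp_pos _).ne' hB.ne', Real.log_exp] at h1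
  linarith

theorem trf (hv : VtrStmt) (hu : UfmStmt) : TrfStmt := by
  intro d N σ E t S x y hd hσ hS hSN hx hy
  obtain ⟨z, hz⟩ := hS
  have hs0 : 0 < |σ| := abs_pos.2 hσ
  have hpar : Par (|E| + |σ| + 1 / |σ|) σ E := by
    have h1 : 0 < 1 / |σ| := by positivity
    have h2 : 0 ≤ |E| := abs_nonneg E
    refine ⟨by linarith, by linarith, ?_⟩
    calc (1 : ℝ) = 1 / |σ| * |σ| := by field_simp
      _ ≤ (|E| + |σ| + 1 / |σ|) * |σ| :=
        mul_le_mul_of_nonneg_right (by linarith) hs0.le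
  have hB : 0 < |E| + |σ| + 1 / |σ| := by positivity
  obtain ⟨_, _, hF⟩ := hu d _ hd hB
  have h0 := (hF σ E hpar N).2
  set T : ℝ := Real.exp t with hT
  have hT0 : 0 < T := Real.exp_pos t
  have e1 := hv d σ E T (box 0 N) S x y hσ hT0
  have e2 := hv d σ E T (box 0 N) S y x hσ hT0
  have hincl : {V : Site d → ℝ | ¬ |FD V (box 0 N) E S x - FD V (box 0 N) E S y| ≤
      DL (box 0 N) E V x y + t} ⊆
      (({V | gr V (box 0 N) E x y = 0} ∪ {V | gr V (box 0 N) E z x = 0}) ∪
        {V | gr V (box 0 N) E z y = 0}) ∪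
      ({V | T * gmax V (box 0 N) E S y < gmax V (box 0 N) E S x * |gr V (box 0 N) E x y|} ∪
        {V | T * gmax V (box 0 N) E S x < gmax V (box 0 N) E S y * |gr V (box 0 N) E y x|}) := by
    intro V hV
    by_contra hcon
    simp only [Set.mem_union, Set.mem_ofPred_eq, not_or, not_lt] at hcon
    obtain ⟨⟨⟨c1, c2⟩, c3⟩, c4, c5⟩ := hcon
    apply hV
    have hA := gmax_pos hz c2
    have hB := gmax_pos hz c3
    have hg : 0 < |gr V (box 0 N) E x y| := abs_pos.2 c1
    have f1 := log_step hA hB hg c4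
    rw [gr_symm V (box 0 N) E y x] at c5
    have f2 := log_step hB hA hg c5
    unfold FD DL
    rw [abs_le]
    constructor
    · linarith
    · linarith
  refine (measure_mono hincl).trans ?_
  refine (measure_union_le _ _).trans ?_
  have z1 : PP d (gl σ) (({V | gr V (box 0 N) E x y = 0} ∪ {V | gr V (box 0 N) E z x = 0}) ∪
      {V | gr V (box 0 N) E z y = 0}) = 0 :=
    measure_union_null (measure_union_null (h0 x hx y hy) (h0 z (hSN hz) x hx))
      (h0 z (hSN hz) y hy)
  rw [z1, zero_add]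
  refine (measure_union_le _ _).trans ((add_le_add e1 e2).trans ?_)
  rw [← ENNReal.ofReal_add (by positivity) (by positivity)]
  apply ENNReal.ofReal_le_ofReal
  rw [hT, Real.exp_neg]
  apply le_of_eq
  field_simp
  ring

end Pool.Agent.LE.H59W
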